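import Pool.Agent.K1H73.SQB.Stm
import Pool.Agent.Y810.SQ.Law2

set_option autoImplicit false

/-!
# Project SQB: the law in terms of `X`
-/

namespace Pool.Agent.K1H73.SQB

open Finset Filter Pool.Agent.Y862.SQ Pool.Agent.Y810.SQ

open Classical in
/-- the law, for the level `X ^ (1 / r)` -/
theorem lawX (h1 : S_LAWJ) (k q : ℕ) (a : Fin k → ℕ) (hq : Squarefree q) (ha : ∀ i, (a i).Coprime q)
    (θ x0 ε : ℝ) (hθ : 0 < θ) (hε : 0 < ε) (y1 : ℕ) : ∃ r0 : ℕ, 2 ≤ r0 ∧ ∀ r : ℕ, r0 ≤ r → ∃ X0 : ℕ, ∀ X : ℕ,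
    X0 ≤ X → 1 ≤ X ∧ (5 : ℝ) < (X : ℝ) ^ (1 / (r : ℝ)) ∧ y1 ≤ ⌊(X : ℝ) ^ (1 / (r : ℝ))⌋₊ ∧
    (∀ t : ℕ, t * V1 ⌊(X : ℝ) ^ (1 / (r : ℝ))⌋₊ ≤ x0 → t ≤ X) ∧ ∀ Z Y : ℕ, (X : ℝ) ^ θ ≤ Y →
    ∀ S U : Fin k → ℕ, (∀ i, U i * V1 ⌊(X : ℝ) ^ (1 / (r : ℝ))⌋₊ ≤ x0) → Dj q a S U →
    ∀ A : Finset (Fin k → ℕ),
    |((((Ioc Z (Z + Y)).filter (fun n =>
      (fun i => Nb q (a i) ⌊(X : ℝ) ^ (1 / (r : ℝ))⌋₊ (S i) (U i) n) ∈ A)).card : ℕ) : ℝ) -
      Y * ∑ c ∈ A, ∏ i, Real.exp (-(mu q ⌊(X : ℝ) ^ (1 / (r : ℝ))⌋₊ (S i) (U i))) *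
        mu q ⌊(X : ℝ) ^ (1 / (r : ℝ))⌋₊ (S i) (U i) ^ c i / ((c i).factorial : ℝ)| ≤ ε * Y := by
  obtain ⟨x1, hx1⟩ : ∃ x1, x1 = max x0 1 := ⟨_, rfl⟩
  have hx11 : 1 ≤ x1 := by rw [hx1]; exact le_max_right _ _
  have hx10 : x0 ≤ x1 := by rw [hx1]; exact le_max_left _ _
  obtain ⟨K0, y0, T0, R0, hlaw⟩ := h1 k q a x1 ε hq ha (by linarith) hε
  obtain ⟨c, C, hc, hC, hV⟩ := V1_bounds
  obtain ⟨R1, hR1⟩ : ∃ R1 : ℕ, (K0 : ℝ) / θ ≤ R1 := exists_nat_ge _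
  refine ⟨max R1 2, le_max_right _ _, ?_⟩
  intro r hr
  have hr2 : 2 ≤ r := (le_max_right _ _).trans hr
  have hrr : (2 : ℝ) ≤ r := by exact_mod_cast hr2
  have hrpos : (0 : ℝ) < r := by linarith
  have hrK : (K0 : ℝ) ≤ θ * r := by
    have h1 : (K0 : ℝ) / θ ≤ r := hR1.trans (by exact_mod_cast (le_max_left _ _).trans hr)
    rw [div_le_iff₀ hθ] at h1
    linarith
  have hXr : Tendsto (fun X : ℕ => (X : ℝ)) atTop atTop := tendsto_natCast_atTop_atTop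
  have hpow2 : Tendsto (fun X : ℕ => (X : ℝ) ^ (1 / (2 * r : ℝ))) atTop atTop :=
    (tendsto_rpow_atTop (by positivity)).comp hXr
  have hlogX : Tendsto (fun X : ℕ => Real.log (X : ℝ)) atTop atTop :=
    Real.tendsto_log_atTop.comp hXr
  have hpos : 0 < (x1 / c) ^ R0 + 1 := by
    have : 0 ≤ (x1 / c) ^ R0 := pow_nonneg (div_nonneg (by linarith) hc.le) _
    linarith
  have hpos1 : 0 < x1 / c + 1 := by
    have : 0 ≤ x1 / c := div_nonneg (by linarith) hc.le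
    linarith
  have hev := (hpow2.eventually_ge_atTop ((y0 : ℝ) + y1 + 9)).and ((eventually_ge_atTop 16).and
      ((hlogX.eventually_ge_atTop (2 * r * (1 + C * ((T0 : ℝ) + 1)))).and
      ((logpow_rpow R0 ((x1 / c) ^ R0 + 1) θ hpos hθ).and
      (logpow_rpow 1 (x1 / c + 1) 1 hpos1 one_pos))))
  obtain ⟨X0, hX0⟩ := eventually_atTop.1 hev
  refine ⟨X0, ?_⟩
  intro X hX
  obtain ⟨hX1, hX16, hX3, hX4, hX5⟩ := hX0 X hX
  have hX16r : (16 : ℝ) ≤ X := by exact_mod_cast hX16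
  have hXpos : (0 : ℝ) < X := by linarith
  have hXone : (1 : ℝ) ≤ X := by linarith
  have hy0r : (0 : ℝ) ≤ y0 := Nat.cast_nonneg _
  have hy1r : (0 : ℝ) ≤ y1 := Nat.cast_nonneg _
  obtain ⟨hy1, hy2, hy3, hy4⟩ := level_low r hr2 X (by omega) (by linarith)
  obtain ⟨y, hy⟩ : ∃ y, y = ⌊(X : ℝ) ^ (1 / (r : ℝ))⌋₊ := ⟨_, rfl⟩
  rw [← hy] at hy1 hy2 hy3 hy4 ⊢
  have hyr : (y0 : ℝ) + y1 + 9 ≤ y := hX1.trans hy1
  have hyy0 : y0 ≤ y := by
    have : (y0 : ℝ) ≤ y := by linarith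
    exact_mod_cast this
  have hyy1 : y1 ≤ y := by
    have : (y1 : ℝ) ≤ y := by linarith
    exact_mod_cast this
  have hyle : (y : ℝ) ≤ (X : ℝ) ^ (1 / (r : ℝ)) := by
    rw [hy]
    exact Nat.floor_le (by positivity)
  obtain ⟨hVlo, hVup⟩ := hV y hy4
  have hV0 : 0 < V1 y := V1_pos y
  have hlX0 : 0 < Real.log X := Real.log_pos (by linarith)
  have hlogy : 0 < Real.log y := lt_of_lt_of_le (by positivity) hy2
  have hT0r : (0 : ℝ) ≤ T0 := Nat.cast_nonneg _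
  have hlogX1 : 1 + C * ((T0 : ℝ) + 1) ≤ Real.log y := by
    refine le_trans ?_ hy2
    rw [le_div_iff₀ (by positivity)]
    linarith
  -- the longest length
  have hup : ∀ t : ℕ, t * V1 y ≤ x1 → (t : ℝ) ≤ x1 / c * Real.log X := by
    intro t ht
    have ht0 : (0 : ℝ) ≤ t := Nat.cast_nonneg t
    have h1 : (t : ℝ) * (c / Real.log y) ≤ x1 := (mul_le_mul_of_nonneg_left hVlo ht0).trans ht
    have h3 : (t : ℝ) * c ≤ x1 * Real.log y := by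
      calc (t : ℝ) * c = t * (c / Real.log y) * Real.log y := by field_simp
        _ ≤ x1 * Real.log y := mul_le_mul_of_nonneg_right h1 hlogy.le
    rw [div_mul_eq_mul_div, le_div_iff₀ hc]
    refine h3.trans ?_
    gcongr
  refine ⟨by omega, by linarith, hyy1, ?_, ?_⟩
  · intro t ht
    have h2 := hup t (ht.trans hx10)
    have h3 : (t : ℝ) ≤ X := by
      refine h2.trans ?_
      have h4 : x1 / c * Real.log X ≤ (x1 / c + 1) * Real.log X ^ 1 := by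
        rw [pow_one]
        exact mul_le_mul_of_nonneg_right (by linarith) hlX0.le
      refine h4.trans (hX5.trans ?_)
      rw [Real.rpow_one]
    exact_mod_cast h3
  intro Z Y hXY S U hU hDj A
  have hY0 : (0 : ℝ) ≤ Y := Nat.cast_nonneg Y
  have hyK : y ^ K0 ≤ Y := by
    have h3 : ((y ^ K0 : ℕ) : ℝ) ≤ Y := by
      push_cast
      calc (y : ℝ) ^ K0 ≤ ((X : ℝ) ^ (1 / (r : ℝ))) ^ K0 :=
            pow_le_pow_left₀ (Nat.cast_nonneg _) hyle _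
        _ = (X : ℝ) ^ (1 / (r : ℝ) * K0) := by
            rw [Real.rpow_mul hXpos.le, Real.rpow_natCast]
        _ ≤ (X : ℝ) ^ θ := by
            apply Real.rpow_le_rpow_of_exponent_le hXone
            rw [one_div, inv_mul_eq_div, div_le_iff₀ hrpos]
            exact hrK
        _ ≤ Y := hXY
    exact_mod_cast h3
  obtain ⟨T, hT⟩ : ∃ T : ℕ, T = ⌊x1 / V1 y⌋₊ := ⟨_, rfl⟩
  have hTV : (T : ℝ) * V1 y ≤ x1 := by
    have h3 : (T : ℝ) ≤ x1 / V1 y := by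
      rw [hT]
      exact Nat.floor_le (by positivity)
    rwa [le_div_iff₀ hV0] at h3
  have hTT0 : T0 ≤ T := by
    rw [hT]
    apply Nat.le_floor
    rw [le_div_iff₀ hV0]
    have h2 : (T0 : ℝ) * V1 y ≤ T0 * (C / Real.log y) := mul_le_mul_of_nonneg_left hVup hT0r
    have h3 : (T0 : ℝ) * (C / Real.log y) ≤ 1 := by
      rw [← mul_div_assoc, div_le_one hlogy]
      have : (T0 : ℝ) * C ≤ C * (T0 + 1) := by nlinarith
      linarith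
    linarith
  have hTR : T ^ R0 ≤ Y := by
    have h2 := hup T hTV
    have h3 : ((T ^ R0 : ℕ) : ℝ) ≤ Y := by
      push_cast
      calc (T : ℝ) ^ R0 ≤ (x1 / c * Real.log X) ^ R0 := pow_le_pow_left₀ (Nat.cast_nonneg _) h2 _
        _ = (x1 / c) ^ R0 * Real.log X ^ R0 := by rw [mul_pow]
        _ ≤ ((x1 / c) ^ R0 + 1) * Real.log X ^ R0 := by
          gcongr
          linarith
        _ ≤ (X : ℝ) ^ θ := hX4
        _ ≤ Y := hXY
    exact_mod_cast h3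
  have hUT : ∀ i, U i ≤ T := by
    intro i
    rw [hT]
    apply Nat.le_floor
    rw [le_div_iff₀ hV0]
    exact (hU i).trans hx10
  exact hlaw Z Y y T hyy0 hyK hTT0 hTR hTV S U hUT hDj A

end Pool.Agent.K1H73.SQB
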