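import Pool.Agent.K1H73.SQB.Stm
import Pool.Agent.Y862.SQ.Main1
import Pool.Agent.K1H31.SQB.Den
import Pool.Agent.K1H36.SQB.Exm
import Pool.Agent.K1H7.SQB.Err
import Pool.Agent.K1H1.SQB.SPL
import Pool.Agent.K1H99.SQB.Mul
import Pool.Agent.K1H65.SQB.Box
import Pool.Agent.K1H89.SQB.Mom
import Pool.Agent.K1H68.SQB.JL
import Pool.Agent.K1H96.SQB.Lawj

set_option autoImplicit false

/-!
# Project SQB: assembly of part 1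
-/

namespace Pool.Agent.K1H73.SQB

open Pool.Agent.Y862.SQ

theorem a_FM : S_FM :=
  Pool.Agent.Y117.SQ.t_FM t_MERT (Pool.Agent.Y286.SQ.t_F1 (Pool.Agent.Y756.SQ.t_BR2 t_MERT))
    (Pool.Agent.Y436.SQ.t_EXC Pool.Agent.Y779.SQ.t_ELS) Pool.Agent.Y848.SQ.t_SW3

theorem a_LAWJ : S_LAWJ :=
  Pool.Agent.K1H96.SQB.t_LAWJ
    (Pool.Agent.K1H89.SQB.t_MOM
      (Pool.Agent.K1H65.SQB.t_BOX Pool.Agent.K1H31.SQB.t_DEN Pool.Agent.K1H36.SQB.t_EXM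
        (Pool.Agent.K1H7.SQB.t_ERR t_MERT a_FM Pool.Agent.Y606.SQ.t_COLL)
        Pool.Agent.K1H1.SQB.t_SPL Pool.Agent.K1H99.SQB.t_MUL Pool.Agent.Y420.SQ.t_TAIL))
    Pool.Agent.K1H68.SQB.t_JL

end Pool.Agent.K1H73.SQB
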