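import Pool.Agent.K1H73.SQB.Stm2

set_option autoImplicit false

/-!
# Project SQB, part 3: consecutive squares, with prescribed almost primes

As in `Stm2.lean`, for the `n` for which `(n + z.1) ^ 2 + z.2` is sifted for all `z` in a fixed finite set `P`.
All errors are relative to the density of these `n`.
-/

namespace Pool.Agent.K1H73.SQB

open Finset Pool.Agent.Y862.SQ

/-- all `(n + z.1) ^ 2 + z.2`, `z ∈ P`, are free of primes `≤ y` -/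
def gd (P : Finset (ℕ × ℕ)) (y n : ℕ) : Prop := ∀ z ∈ P, ∀ p ∈ pr y, ¬ p ∣ (n + z.1) ^ 2 + z.2

/-- the density of these `n` -/
noncomputable def VP (P : Finset (ℕ × ℕ)) (y : ℕ) : ℝ := ∏ p ∈ pr y, (1 - (r2 P p : ℝ) / p)

open Classical in
/-- the block of the box `i`, without the elements of `P` -/
noncomputable def blk (P : Finset (ℕ × ℕ)) (s S U : ℕ) : Finset ℕ := (Ioc S U).filter (fun h => (s, h) ∉ P)

open Classical in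
/-- the number of the admissible `(n + s) ^ 2 + h`, `h` in the block -/
noncomputable def NP (P : Finset (ℕ × ℕ)) (q a y s S U n : ℕ) : ℕ :=
  ((blk P s S U).filter (fun h => ok q a y ((n + s) ^ 2 + h))).card

/-- `n` is bad at `p` for `P` and the sets `G i` -/
def Qp {k : ℕ} (q : ℕ) (a s : Fin k → ℕ) (P : Finset (ℕ × ℕ)) (G : Fin k → Finset ℕ) (p n : ℕ) : Prop :=
  (∃ z ∈ P, p ∣ (n + z.1) ^ 2 + z.2) ∨ Qc q a s G p n

open Classical in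
/-- the number of the bad classes modulo `p` -/
noncomputable def rP {k : ℕ} (q : ℕ) (a s : Fin k → ℕ) (P : Finset (ℕ × ℕ)) (G : Fin k → Finset ℕ)
    (p : ℕ) : ℕ := ((range p).filter (fun r => Qp q a s P G p r)).card

/-- the density -/
noncomputable def DP {k : ℕ} (q : ℕ) (a s : Fin k → ℕ) (P : Finset (ℕ × ℕ)) (G : Fin k → Finset ℕ)
    (y : ℕ) : ℝ := ∏ p ∈ pr y, (1 - (rP q a s P G p : ℝ) / p)

/-- the families of sets: `κ i` elements from the block `i` -/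
noncomputable def bxP {k : ℕ} (P : Finset (ℕ × ℕ)) (κ s S U : Fin k → ℕ) : Finset (Fin k → Finset ℕ) :=
  Fintype.piFinset (fun i => powersetCard (κ i) (blk P (s i) (S i) (U i)))

/-- VPL: a lower bound for the density of an admissible set -/
def S_VPL : Prop := ∀ P : Finset (ℕ × ℕ), (∀ p : ℕ, p.Prime → r2 P p < p) →
  ∃ c : ℝ, 0 < c ∧ ∀ w : ℕ, c * V1 w ^ (4 * P.card) ≤ VP P w

/-- ERR3: the two error terms over all sets with `K` elements -/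
def S_ERR3 : Prop := ∀ (P : Finset (ℕ × ℕ)), (∀ p : ℕ, p.Prime → r2 P p < p) →
  ∀ (K J w1 : ℕ) (δ : ℝ), 1 ≤ K → 0 < δ → (∀ z ∈ P, z.1 ≤ J ∧ 1 ≤ z.2) → ∃ w T0 : ℕ,
  w1 ≤ w ∧ 4 * (K + P.card) + 2 ≤ w ∧ 4 * ((K + P.card : ℕ) : ℝ) ^ 2 / w ≤ δ ∧
  (∀ x ∈ prs2 P, Rn x.1 x.2 < w) ∧ ∀ T : ℕ, T0 ≤ T → ∀ y : ℕ, w ≤ y →
  ∑ H ∈ powersetCard K (EE J T), |∏ z ∈ H, Ff w y z.2 - 1| ≤ δ * (VP P w * (T * V1 w) ^ K) ∧
  ∑ H ∈ (powersetCard K (EE J T)).filter (fun H => Disjoint P H), (∏ z ∈ H, Ff w y z.2) *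
    ∑ x ∈ prs2 (P ∪ H), (Dd ((1 + 4 * (K + P.card)) ^ ((K + P.card) ^ 2) - 1) w (Rn x.1 x.2) - 1) ≤
      δ * (VP P w * (T * V1 w) ^ K)

open Classical in
/-- EXM3 -/
def S_EXM3 : Prop := ∀ (k q w : ℕ) (a s κ S U : Fin k → ℕ) (P : Finset (ℕ × ℕ)),
  ((Pool.Agent.Y681.SQ.Mw w : ℝ) * VP P w =
    (((range (Pool.Agent.Y681.SQ.Mw w)).filter (fun n => gd P w n)).card : ℝ)) ∧
  (Pool.Agent.Y681.SQ.Mw w : ℝ) * ∑ G ∈ bxP P κ s S U, DP q a s P G w =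
    ∑ n ∈ (range (Pool.Agent.Y681.SQ.Mw w)).filter (fun n => gd P w n),
      ∏ i, ((NP P q (a i) w (s i) (S i) (U i) n).choose (κ i) : ℝ)

/-- SPL3: the large primes -/
def S_SPL3 : Prop := ∀ (k q w y : ℕ) (a s : Fin k → ℕ) (P : Finset (ℕ × ℕ)) (G : Fin k → Finset ℕ),
  Squarefree q → 0 < q → q ≤ w → w ≤ y →
  DP q a s P G y = DP q a s P G w * VT2 (P ∪ uc s G) w y ∧ VP P y = VP P w * VT2 P w y ∧
  0 ≤ DP q a s P G w ∧ DP q a s P G w ≤ 1 ∧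
  (∀ i j, s i = s j → a i % q ≠ a j % q → ¬ Disjoint (G i) (G j) → DP q a s P G w = 0)

/-- BOX3: the average of the singular series over the boxes -/
def S_BOX3 : Prop := ∀ (k q : ℕ) (a s κ : Fin k → ℕ) (P : Finset (ℕ × ℕ)) (x0 η : ℝ), Squarefree q →
  (∀ i, (a i).Coprime q) → (∀ p : ℕ, p.Prime → r2 P p < p) → (∀ z ∈ P, 1 ≤ z.2) → 0 < η →
  ∃ y0 T0 : ℕ, ∀ y T : ℕ, y0 ≤ y → T0 ≤ T → T * V1 y ≤ x0 → ∀ S U : Fin k → ℕ, (∀ i, U i ≤ T) →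
  Dj2 q a s S U →
  |∑ G ∈ bxP P κ s S U, DP q a s P G y - VP P y * mt κ (fun i => mu q y (S i) (U i))| ≤ η * VP P y

open Classical in
/-- MOM3: the joint binomial moments -/
def S_MOM3 : Prop := ∀ (k q : ℕ) (a s κ : Fin k → ℕ) (P : Finset (ℕ × ℕ)) (x0 η : ℝ), Squarefree q →
  (∀ i, (a i).Coprime q) → (∀ p : ℕ, p.Prime → r2 P p < p) → (∀ z ∈ P, 1 ≤ z.2) → 0 < η →
  ∃ K0 y0 T0 : ℕ, ∀ Z Y y T : ℕ, y0 ≤ y → y ^ K0 ≤ Y → T0 ≤ T → T * V1 y ≤ x0 →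
  ∀ S U : Fin k → ℕ, (∀ i, U i ≤ T) → Dj2 q a s S U →
  |∑ n ∈ (Icc 1 Y).filter (fun n => gd P y (n + Z)),
      ∏ i, ((NP P q (a i) y (s i) (S i) (U i) (n + Z)).choose (κ i) : ℝ) -
    Y * VP P y * mt κ (fun i => mu q y (S i) (U i))| ≤
      η * (Y * VP P y) + (T : ℝ) ^ (∑ i, κ i) * √(Y : ℝ)

open Classical in
/-- the law for the sifted integers above consecutive squares, with prescribed elements -/
def S_LAWJ3 : Prop := ∀ (k q : ℕ) (a s : Fin k → ℕ) (P : Finset (ℕ × ℕ)) (x0 ε : ℝ), Squarefree q →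
  (∀ i, (a i).Coprime q) → (∀ p : ℕ, p.Prime → r2 P p < p) → (∀ z ∈ P, 1 ≤ z.2) → 0 ≤ x0 → 0 < ε →
  ∃ K0 y0 T0 R0 : ℕ, ∀ Z Y y T : ℕ, y0 ≤ y → y ^ K0 ≤ Y → T0 ≤ T → T ^ R0 ≤ Y →
  T * V1 y ≤ x0 → ∀ S U : Fin k → ℕ, (∀ i, U i ≤ T) → Dj2 q a s S U → ∀ A : Finset (Fin k → ℕ),
  |((((Ioc Z (Z + Y)).filter (fun n => gd P y n ∧
      (fun i => NP P q (a i) y (s i) (S i) (U i) n) ∈ A)).card : ℕ) : ℝ) -
    Y * VP P y * ∑ c ∈ A, ∏ i, Real.exp (-(mu q y (S i) (U i))) * mu q y (S i) (U i) ^ c i /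
      ((c i).factorial : ℝ)| ≤ ε * (Y * VP P y)

end Pool.Agent.K1H73.SQB
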