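import Pool.Agent.K1H73.SQB.Main
import Pool.Agent.K1H73.SQB.Stm3
import Pool.Agent.K1H97.SQB.Tail2
import Pool.Agent.K1H25.SQB.Coll2
import Pool.Agent.K1H29.SQB.Mul2
import Pool.Agent.K1H96.SQB.VPL3
import Pool.Agent.K1H65.SQB.Err3
import Pool.Agent.K1H11.SQB.Exm3
import Pool.Agent.K1H13.SQB.Spl3
import Pool.Agent.K1H24.SQB.Box3
import Pool.Agent.K1H75.SQB.Mom3
import Pool.Agent.K1H83.SQB.Lawj3

set_option autoImplicit false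

/-!
# Project SQB: assembly of part 3
-/

namespace Pool.Agent.K1H73.SQB

open Pool.Agent.Y862.SQ

theorem a_LAWJ3 : S_LAWJ3 :=
  Pool.Agent.K1H83.SQB.t_LAWJ3
    (Pool.Agent.K1H75.SQB.t_MOM3
      (Pool.Agent.K1H24.SQB.t_BOX3 Pool.Agent.K1H31.SQB.t_DEN Pool.Agent.K1H11.SQB.t_EXM3
        (Pool.Agent.K1H65.SQB.t_ERR3 t_MERT a_FM Pool.Agent.K1H25.SQB.t_COLL2 Pool.Agent.K1H96.SQB.t_VPL)
        Pool.Agent.K1H13.SQB.t_SPL3 Pool.Agent.K1H29.SQB.t_MUL2 Pool.Agent.K1H97.SQB.t_TAIL2))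
    Pool.Agent.K1H68.SQB.t_JL Pool.Agent.K1H96.SQB.t_VPL

end Pool.Agent.K1H73.SQB
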