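import Pool.Agent.Y681.SQ.Small

set_option autoImplicit false

/-!
# Project SQB (MP_73869e_nt): the integers without small prime factors just above the squares form a
marked Poisson process (positions and residue classes modulo `q`); statements of the pieces

Fixed: `k` boxes, `q` squarefree, residues `a i` prime to `q`.  The box `i` consists of the integers
`n ^ 2 + h`, `S i < h ≤ U i`, that are congruent to `a i` modulo `q`.  The conditions are written prime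
by prime: a prime `p ≤ y` must not divide `n ^ 2 + h`, and `n ^ 2 + h ≡ a i` modulo `p` if `p ∣ q`.
-/

namespace Pool.Agent.K1H73.SQB

open Finset Pool.Agent.Y862.SQ

/-- `m` is free of primes `≤ y` and congruent to `a` modulo the primes of `q` -/
def ok (q a y m : ℕ) : Prop := ∀ p ∈ pr y, ¬ p ∣ m ∧ (p ∣ q → m % p = a % p)

open Classical in
/-- the number of the admissible `n ^ 2 + h`, `S < h ≤ U` -/
noncomputable def Nb (q a y S U n : ℕ) : ℕ := ((Ioc S U).filter (fun h => ok q a y (n ^ 2 + h))).card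

/-- `n` is bad at `p` for the sets `G i` -/
def Qm {k : ℕ} (q : ℕ) (a : Fin k → ℕ) (G : Fin k → Finset ℕ) (p n : ℕ) : Prop :=
  ∃ i, ∃ h ∈ G i, ¬ (¬ p ∣ n ^ 2 + h ∧ (p ∣ q → (n ^ 2 + h) % p = a i % p))

open Classical in
/-- the number of the bad classes modulo `p` -/
noncomputable def rG {k : ℕ} (q : ℕ) (a : Fin k → ℕ) (G : Fin k → Finset ℕ) (p : ℕ) : ℕ :=
  ((range p).filter (fun r => Qm q a G p r)).card

/-- the density of the `n` for which all `n ^ 2 + h`, `h ∈ G i`, are admissible -/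
noncomputable def DG {k : ℕ} (q : ℕ) (a : Fin k → ℕ) (G : Fin k → Finset ℕ) (y : ℕ) : ℝ :=
  ∏ p ∈ pr y, (1 - (rG q a G p : ℝ) / p)

/-- the union -/
def un {k : ℕ} (G : Fin k → Finset ℕ) : Finset ℕ := univ.biUnion G

/-- the families of sets: `κ i` elements from the block `i` -/
def bx {k : ℕ} (κ S U : Fin k → ℕ) : Finset (Fin k → Finset ℕ) :=
  Fintype.piFinset (fun i => powersetCard (κ i) (Ioc (S i) (U i)))

/-- the boxes are disjoint -/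
def Dj {k : ℕ} (q : ℕ) (a S U : Fin k → ℕ) : Prop :=
  ∀ i j, i ≠ j → a i % q ≠ a j % q ∨ Disjoint (Ioc (S i) (U i)) (Ioc (S j) (U j))

/-- the mean of the number in the box `i` -/
noncomputable def mu (q y S U : ℕ) : ℝ := ((U - S : ℕ) : ℝ) * V1 y / (Nat.totient q : ℝ)

/-- the main term -/
noncomputable def mt {k : ℕ} (κ : Fin k → ℕ) (x : Fin k → ℝ) : ℝ := ∏ i, x i ^ κ i / ((κ i).factorial : ℝ)

/-- DEN: the admissible integers in intervals, for the small primes -/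
def S_DEN : Prop := ∀ q a w b L : ℕ, Squarefree q → a.Coprime q → q ≤ w → 
  |((((Ioc b (b + L)).filter (fun m => ∀ p ∈ pr w, ¬ p ∣ m ∧ (p ∣ q → m % p = a % p))).card : ℕ) : ℝ) -
    L * V1 w / (Nat.totient q : ℝ)| ≤ Pool.Agent.Y681.SQ.Mw w

/-- EXM: the sum of the small densities, as an average over a period -/
def S_EXM : Prop := ∀ (k q w : ℕ) (a κ S U : Fin k → ℕ),
  (Pool.Agent.Y681.SQ.Mw w : ℝ) * ∑ G ∈ bx κ S U, DG q a G w =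
    ∑ n ∈ range (Pool.Agent.Y681.SQ.Mw w), ∏ i, ((Nb q (a i) w (S i) (U i) n).choose (κ i) : ℝ)

/-- ERR: the two error terms over all sets with `K` elements (inside `Y61.SQ.t_AVG`) -/
def S_ERR : Prop := ∀ (K w1 : ℕ) (δ : ℝ), 1 ≤ K → 0 < δ → ∃ w T0 : ℕ, w1 ≤ w ∧ 4 * K + 2 ≤ w ∧
  4 * (K : ℝ) ^ 2 / w ≤ δ ∧ ∀ T : ℕ, T0 ≤ T → ∀ y : ℕ, w ≤ y →
  ∑ H ∈ powersetCard K (Icc 1 T), |∏ h ∈ H, Ff w y h - 1| ≤ δ * (T * V1 w) ^ K ∧
  ∑ H ∈ powersetCard K (Icc 1 T), (∏ h ∈ H, Ff w y h) *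
    ∑ z ∈ prs H, (Dd ((1 + 4 * K) ^ (K ^ 2) - 1) w (z.2 - z.1) - 1) ≤ δ * (T * V1 w) ^ K

/-- SPL: the large primes -/
def S_SPL : Prop := ∀ (k q w y : ℕ) (a : Fin k → ℕ) (G : Fin k → Finset ℕ), Squarefree q → 0 < q → q ≤ w →
  w ≤ y → DG q a G y = DG q a G w * VT (un G) w y ∧ 0 ≤ DG q a G w ∧ DG q a G w ≤ 1 ∧
  (∀ i j, a i % q ≠ a j % q → ¬ Disjoint (G i) (G j) → DG q a G w = 0)

/-- MUL: sums over the boxes and sums over all sets -/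
def S_MUL : Prop := ∀ (k T : ℕ) (κ S U : Fin k → ℕ) (f : Finset ℕ → ℝ), (∀ H, 0 ≤ f H) → (∀ i, U i ≤ T) →
  ∑ G ∈ (bx κ S U).filter (fun G => ∀ i j, i ≠ j → Disjoint (G i) (G j)), f (un G) ≤
    2 ^ (k * ∑ i, κ i) * ∑ H ∈ powersetCard (∑ i, κ i) (Icc 1 T), f H

/-- BOX: the average of the singular series over the boxes -/
def S_BOX : Prop := ∀ (k q : ℕ) (a κ : Fin k → ℕ) (x0 η : ℝ), Squarefree q → (∀ i, (a i).Coprime q) →
  0 < η → ∃ y0 T0 : ℕ, ∀ y T : ℕ, y0 ≤ y → T0 ≤ T → T * V1 y ≤ x0 → ∀ S U : Fin k → ℕ, (∀ i, U i ≤ T) →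
  Dj q a S U → |∑ G ∈ bx κ S U, DG q a G y - mt κ (fun i => mu q y (S i) (U i))| ≤ η

/-- MOM: the joint binomial moments -/
def S_MOM : Prop := ∀ (k q : ℕ) (a κ : Fin k → ℕ) (x0 η : ℝ), Squarefree q → (∀ i, (a i).Coprime q) →
  0 < η → ∃ K0 y0 T0 : ℕ, ∀ Z Y y T : ℕ, y0 ≤ y → y ^ K0 ≤ Y → T0 ≤ T → T * V1 y ≤ x0 →
  ∀ S U : Fin k → ℕ, (∀ i, U i ≤ T) → Dj q a S U →
  |∑ n ∈ Icc 1 Y, ∏ i, ((Nb q (a i) y (S i) (U i) (n + Z)).choose (κ i) : ℝ) -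
    Y * mt κ (fun i => mu q y (S i) (U i))| ≤ η * Y + (T : ℝ) ^ (∑ i, κ i) * √(Y : ℝ)

/-- JL: joint binomial moments determine the joint law -/
def S_JL : Prop := ∀ (k : ℕ) (x0 ε : ℝ), 0 ≤ x0 → 0 < ε → ∃ (R : ℕ) (η : ℝ), 0 < η ∧
  ∀ (Om : Finset ℕ) (N : ℕ → Fin k → ℕ) (x : Fin k → ℝ), (∀ i, 0 ≤ x i) → (∀ i, x i ≤ x0) →
  (∀ κ : Fin k → ℕ, (∀ i, κ i ≤ R) →
    |∑ n ∈ Om, ∏ i, ((N n i).choose (κ i) : ℝ) - Om.card * mt κ x| ≤ η * Om.card) →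
  ∀ A : Finset (Fin k → ℕ), |((Om.filter (fun n => N n ∈ A)).card : ℝ) -
    Om.card * ∑ c ∈ A, ∏ i, Real.exp (-(x i)) * x i ^ c i / ((c i).factorial : ℝ)| ≤ ε * Om.card

/-- the law for the sifted integers -/
def S_LAWJ : Prop := ∀ (k q : ℕ) (a : Fin k → ℕ) (x0 ε : ℝ), Squarefree q → (∀ i, (a i).Coprime q) →
  0 ≤ x0 → 0 < ε → ∃ K0 y0 T0 R0 : ℕ, ∀ Z Y y T : ℕ, y0 ≤ y → y ^ K0 ≤ Y → T0 ≤ T → T ^ R0 ≤ Y →
  T * V1 y ≤ x0 → ∀ S U : Fin k → ℕ, (∀ i, U i ≤ T) → Dj q a S U → ∀ A : Finset (Fin k → ℕ),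
  |((((Ioc Z (Z + Y)).filter (fun n => (fun i => Nb q (a i) y (S i) (U i) n) ∈ A)).card : ℕ) : ℝ) -
    Y * ∑ c ∈ A, ∏ i, Real.exp (-(mu q y (S i) (U i))) * mu q y (S i) (U i) ^ c i /
      ((c i).factorial : ℝ)| ≤ ε * Y

end Pool.Agent.K1H73.SQB
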