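import Pool.Agent.K1H73.SQB.Stm

set_option autoImplicit false

/-!
# Project SQB, part 2: consecutive squares

As in `Stm.lean`, but the box `i` now belongs to the square of `n + s i`: it consists of the integers
`(n + s i) ^ 2 + h`, `S i < h ≤ U i`, congruent to `a i` modulo `q`.  Elements are pairs `(s, h)`.
-/

namespace Pool.Agent.K1H73.SQB

open Finset Pool.Agent.Y862.SQ

/-- `n` is bad at `p` for the sets `G i` with shifts `s i` -/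
def Qc {k : ℕ} (q : ℕ) (a s : Fin k → ℕ) (G : Fin k → Finset ℕ) (p n : ℕ) : Prop :=
  ∃ i, ∃ h ∈ G i, ¬ (¬ p ∣ (n + s i) ^ 2 + h ∧ (p ∣ q → ((n + s i) ^ 2 + h) % p = a i % p))

open Classical in
/-- the number of the bad classes modulo `p` -/
noncomputable def rC {k : ℕ} (q : ℕ) (a s : Fin k → ℕ) (G : Fin k → Finset ℕ) (p : ℕ) : ℕ :=
  ((range p).filter (fun r => Qc q a s G p r)).card

/-- the density of the `n` for which all `(n + s i) ^ 2 + h`, `h ∈ G i`, are admissible -/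
noncomputable def DC {k : ℕ} (q : ℕ) (a s : Fin k → ℕ) (G : Fin k → Finset ℕ) (y : ℕ) : ℝ :=
  ∏ p ∈ pr y, (1 - (rC q a s G p : ℝ) / p)

/-- the union, as a set of pairs -/
def uc {k : ℕ} (s : Fin k → ℕ) (G : Fin k → Finset ℕ) : Finset (ℕ × ℕ) :=
  univ.biUnion (fun i => (G i).image (fun h => (s i, h)))

/-- the boxes are disjoint -/
def Dj2 {k : ℕ} (q : ℕ) (a s S U : Fin k → ℕ) : Prop :=
  ∀ i j, i ≠ j → s i ≠ s j ∨ a i % q ≠ a j % q ∨ Disjoint (Ioc (S i) (U i)) (Ioc (S j) (U j))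

/-- number of the classes `r` modulo `p` with `p ∣ (r + z.1) ^ 2 + z.2` for some `z` in `H` -/
def r2 (H : Finset (ℕ × ℕ)) (p : ℕ) : ℕ :=
  ((range p).filter (fun r => ∃ z ∈ H, p ∣ (r + z.1) ^ 2 + z.2)).card

/-- the part above `w` -/
noncomputable def VT2 (H : Finset (ℕ × ℕ)) (w y : ℕ) : ℝ :=
  ∏ p ∈ (pr y).filter (fun p => w < p), (1 - (r2 H p : ℝ) / p)

/-- the resultant of `(x + z.1) ^ 2 + z.2` and `(x + z'.1) ^ 2 + z'.2` -/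
def Rn (z z' : ℕ × ℕ) : ℕ :=
  (Nat.dist z.2 z'.2) ^ 2 + 2 * (Nat.dist z.1 z'.1) ^ 2 * (z.2 + z'.2) + (Nat.dist z.1 z'.1) ^ 4

/-- pairs of different elements -/
def prs2 (H : Finset (ℕ × ℕ)) : Finset ((ℕ × ℕ) × (ℕ × ℕ)) := (H ×ˢ H).filter (fun x => x.1 ≠ x.2)

/-- all elements -/
def EE (J T : ℕ) : Finset (ℕ × ℕ) := (range (J + 1)) ×ˢ (Icc 1 T)

/-- TAIL2: the tail of the singular series of a set of pairs (adapt `Y420.SQ.t_TAIL`) -/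
def S_TAIL2 : Prop := ∀ (H : Finset (ℕ × ℕ)) (w y : ℕ), 4 * H.card + 2 ≤ w →
  V1t w y ^ H.card * (∏ z ∈ H, Ff w y z.2) * (1 - 4 * (H.card : ℝ) ^ 2 / w) ≤ VT2 H w y ∧
  VT2 H w y ≤ V1t w y ^ H.card * (∏ z ∈ H, Ff w y z.2) *
    (1 + ∑ x ∈ prs2 H, (Dd ((1 + 4 * H.card) ^ (H.card ^ 2) - 1) w (Rn x.1 x.2) - 1))

/-- COLL2: collisions on average -/
def S_COLL2 : Prop := ∀ K J : ℕ, ∃ C : ℝ, 0 < C ∧ ∀ w : ℕ, 1 ≤ w → ∃ T0 : ℕ, ∀ T : ℕ, T0 ≤ T →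
  ∀ z ∈ EE J T, ∑ z' ∈ (EE J T).filter (fun z' => z' ≠ z), (Dd K w (Rn z z') - 1) ≤ C * (T : ℝ) / w

/-- ERR2: the two error terms over all sets with `K` elements -/
def S_ERR2 : Prop := ∀ (K J w1 : ℕ) (δ : ℝ), 1 ≤ K → 0 < δ → ∃ w T0 : ℕ, w1 ≤ w ∧ 4 * K + 2 ≤ w ∧
  4 * (K : ℝ) ^ 2 / w ≤ δ ∧ ∀ T : ℕ, T0 ≤ T → ∀ y : ℕ, w ≤ y →
  ∑ H ∈ powersetCard K (EE J T), |∏ z ∈ H, Ff w y z.2 - 1| ≤ δ * (T * V1 w) ^ K ∧
  ∑ H ∈ powersetCard K (EE J T), (∏ z ∈ H, Ff w y z.2) *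
    ∑ x ∈ prs2 H, (Dd ((1 + 4 * K) ^ (K ^ 2) - 1) w (Rn x.1 x.2) - 1) ≤ δ * (T * V1 w) ^ K

/-- EXM2 -/
def S_EXM2 : Prop := ∀ (k q w : ℕ) (a s κ S U : Fin k → ℕ),
  (Pool.Agent.Y681.SQ.Mw w : ℝ) * ∑ G ∈ bx κ S U, DC q a s G w =
    ∑ n ∈ range (Pool.Agent.Y681.SQ.Mw w), ∏ i, ((Nb q (a i) w (S i) (U i) (n + s i)).choose (κ i) : ℝ)

/-- SPL2: the large primes -/
def S_SPL2 : Prop := ∀ (k q w y : ℕ) (a s : Fin k → ℕ) (G : Fin k → Finset ℕ), Squarefree q → 0 < q →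
  q ≤ w → w ≤ y → DC q a s G y = DC q a s G w * VT2 (uc s G) w y ∧ 0 ≤ DC q a s G w ∧ DC q a s G w ≤ 1 ∧
  (∀ i j, s i = s j → a i % q ≠ a j % q → ¬ Disjoint (G i) (G j) → DC q a s G w = 0)

/-- MUL2: sums over the boxes and sums over all sets -/
def S_MUL2 : Prop := ∀ (k J T : ℕ) (s κ S U : Fin k → ℕ) (f : Finset (ℕ × ℕ) → ℝ), (∀ H, 0 ≤ f H) →
  (∀ i, s i ≤ J) → (∀ i, U i ≤ T) →
  ∑ G ∈ (bx κ S U).filter (fun G => ∀ i j, i ≠ j → s i = s j → Disjoint (G i) (G j)), f (uc s G) ≤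
    2 ^ (k * ∑ i, κ i) * ∑ H ∈ powersetCard (∑ i, κ i) (EE J T), f H

/-- BOX2: the average of the singular series over the boxes -/
def S_BOX2 : Prop := ∀ (k q : ℕ) (a s κ : Fin k → ℕ) (x0 η : ℝ), Squarefree q → (∀ i, (a i).Coprime q) →
  0 < η → ∃ y0 T0 : ℕ, ∀ y T : ℕ, y0 ≤ y → T0 ≤ T → T * V1 y ≤ x0 → ∀ S U : Fin k → ℕ, (∀ i, U i ≤ T) →
  Dj2 q a s S U → |∑ G ∈ bx κ S U, DC q a s G y - mt κ (fun i => mu q y (S i) (U i))| ≤ η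

/-- MOM2: the joint binomial moments -/
def S_MOM2 : Prop := ∀ (k q : ℕ) (a s κ : Fin k → ℕ) (x0 η : ℝ), Squarefree q → (∀ i, (a i).Coprime q) →
  0 < η → ∃ K0 y0 T0 : ℕ, ∀ Z Y y T : ℕ, y0 ≤ y → y ^ K0 ≤ Y → T0 ≤ T → T * V1 y ≤ x0 →
  ∀ S U : Fin k → ℕ, (∀ i, U i ≤ T) → Dj2 q a s S U →
  |∑ n ∈ Icc 1 Y, ∏ i, ((Nb q (a i) y (S i) (U i) (n + Z + s i)).choose (κ i) : ℝ) -
    Y * mt κ (fun i => mu q y (S i) (U i))| ≤ η * Y + (T : ℝ) ^ (∑ i, κ i) * √(Y : ℝ)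

/-- the law for the sifted integers above consecutive squares -/
def S_LAWJ2 : Prop := ∀ (k q : ℕ) (a s : Fin k → ℕ) (x0 ε : ℝ), Squarefree q → (∀ i, (a i).Coprime q) →
  0 ≤ x0 → 0 < ε → ∃ K0 y0 T0 R0 : ℕ, ∀ Z Y y T : ℕ, y0 ≤ y → y ^ K0 ≤ Y → T0 ≤ T → T ^ R0 ≤ Y →
  T * V1 y ≤ x0 → ∀ S U : Fin k → ℕ, (∀ i, U i ≤ T) → Dj2 q a s S U → ∀ A : Finset (Fin k → ℕ),
  |((((Ioc Z (Z + Y)).filter (fun n => (fun i => Nb q (a i) y (S i) (U i) (n + s i)) ∈ A)).card : ℕ) : ℝ) -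
    Y * ∑ c ∈ A, ∏ i, Real.exp (-(mu q y (S i) (U i))) * mu q y (S i) (U i) ^ c i /
      ((c i).factorial : ℝ)| ≤ ε * Y

end Pool.Agent.K1H73.SQB
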