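import Pool.Agent.K1H73.SQB.LawX
import Pool.Agent.Results.MP_73869e_nt.LawOfLargeNumbers

set_option autoImplicit false

/-!
# Project SQB: from the sifted integers to the almost primes
-/

namespace Pool.Agent.K1H73.SQB

open Finset Pool.Agent.Y862.SQ

open Classical in
/-- the number of the good integers `m ≡ a` modulo `q` with `n ^ 2 + S < m ≤ n ^ 2 + U` -/
noncomputable def Ng (r X q a S U n : ℕ) : ℕ :=
  ((Ioc (n ^ 2 + S) (n ^ 2 + U)).filter (fun m =>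
    Pool.Agent.Results.MP_73869e_nt.LawOfLargeNumbers.Good r X m ∧ m % q = a % q)).card

/-- congruences modulo a squarefree number -/
lemma mod_iff {q : ℕ} (hq : Squarefree q) (m a y : ℕ) (hy : q ≤ y) :
    (∀ p ∈ pr y, p ∣ q → m % p = a % p) ↔ m % q = a % q := by
  have hq0 : q ≠ 0 := hq.ne_zero
  constructor
  · intro h
    have h2 : (q : ℤ) ∣ (m : ℤ) - a := by
      rw [← Nat.prod_primeFactors_of_squarefree hq]
      push_cast
      apply Finset.prod_dvd_of_coprime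
      · intro p hp p' hp' hne
        exact Nat.isCoprime_iff_coprime.mpr ((Nat.coprime_primes
          (Nat.prime_of_mem_primeFactors hp) (Nat.prime_of_mem_primeFactors hp')).mpr hne)
      · intro p hp
        have hpp := Nat.prime_of_mem_primeFactors hp
        have hpq := Nat.dvd_of_mem_primeFactors hp
        have h3 : m % p = a % p := by
          apply h p _ hpq
          unfold pr
          rw [mem_filter, mem_Icc]
          exact ⟨⟨hpp.one_lt.le, (Nat.le_of_dvd (Nat.pos_of_ne_zero hq0) hpq).trans hy⟩, hpp⟩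
        have h4 : (m : ℤ) % p = (a : ℤ) % p := by exact_mod_cast h3
        exact Int.dvd_of_emod_eq_zero (Int.emod_eq_emod_iff_emod_sub_eq_zero.mp h4)
    have h4 : (m : ℤ) % q = (a : ℤ) % q := Int.emod_eq_emod_iff_emod_sub_eq_zero.mpr
      (Int.emod_eq_zero_of_dvd h2)
    exact_mod_cast h4
  · intro h p _ hpq
    have h1 : m ≡ a [MOD q] := h
    exact h1.of_dvd hpq

lemma ok_iff {q : ℕ} (hq : Squarefree q) (m a y : ℕ) (hy : q ≤ y) :
    ok q a y m ↔ (∀ p ∈ pr y, ¬ p ∣ m) ∧ m % q = a % q := by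
  rw [← mod_iff hq m a y hy]
  unfold ok
  constructor
  · intro h
    exact ⟨fun p hp => (h p hp).1, fun p hp => (h p hp).2⟩
  · rintro ⟨h1, h2⟩ p hp
    exact ⟨h1 p hp, h2 p hp⟩

lemma Ng_eq {q : ℕ} (hq : Squarefree q) (r X a S U n : ℕ) (hr : 1 ≤ r) (hX : 1 ≤ X)
    (h5 : 5 < (X : ℝ) ^ (1 / (r : ℝ))) (hqy : q ≤ ⌊(X : ℝ) ^ (1 / (r : ℝ))⌋₊)
    (hn : n ^ 2 + U ≤ 5 * X ^ 2) : Ng r X q a S U n = Nb q a ⌊(X : ℝ) ^ (1 / (r : ℝ))⌋₊ S U n := by
  classical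
  unfold Ng Nb
  symm
  apply Finset.card_bij (fun h _ => n ^ 2 + h)
  · intro h hh
    rw [mem_filter, mem_Ioc] at hh
    rw [mem_filter, mem_Ioc]
    refine ⟨by omega, ?_⟩
    have h1 := (ok_iff hq _ _ _ hqy).1 hh.2
    rw [Pool.Agent.Results.MP_73869e_nt.LawOfLargeNumbers.good_iff r X (n ^ 2 + h) hr hX h5 (by omega) (by omega)]
    exact h1
  · intro a _ b _ hab
    omega
  · intro m hm
    rw [mem_filter, mem_Ioc] at hm
    refine ⟨m - n ^ 2, ?_, by omega⟩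
    rw [mem_filter, mem_Ioc]
    refine ⟨by omega, ?_⟩
    have h1 := (Pool.Agent.Results.MP_73869e_nt.LawOfLargeNumbers.good_iff r X m hr hX h5 (by omega) (by omega)).1 hm.2.1
    have h2 : n ^ 2 + (m - n ^ 2) = m := by omega
    rw [h2]
    exact (ok_iff hq _ _ _ hqy).2 ⟨h1, hm.2.2⟩

open Classical in
/-- the law for the almost primes -/
theorem lawG (h1 : S_LAWJ) (k q : ℕ) (a : Fin k → ℕ) (hq : Squarefree q) (ha : ∀ i, (a i).Coprime q)
    (θ x0 ε : ℝ) (hθ : 0 < θ) (hε : 0 < ε) : ∃ r0 : ℕ, 2 ≤ r0 ∧ ∀ r : ℕ, r0 ≤ r → ∃ X0 : ℕ, ∀ X : ℕ,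
    X0 ≤ X → ∀ Z Y : ℕ, (X : ℝ) ^ θ ≤ Y → Z + Y ≤ 2 * X →
    ∀ S U : Fin k → ℕ, (∀ i, U i * Pool.Agent.Results.MP_73869e_nt.LawOfLargeNumbers.V r X ≤ x0) →
    (∀ i j, i ≠ j → a i % q ≠ a j % q ∨ Disjoint (Ioc (S i) (U i)) (Ioc (S j) (U j))) →
    ∀ A : Finset (Fin k → ℕ),
    |((((Ioc Z (Z + Y)).filter (fun n => (fun i => Ng r X q (a i) (S i) (U i) n) ∈ A)).card : ℕ) : ℝ) -
      Y * ∑ c ∈ A, ∏ i, Real.exp (-(((U i - S i : ℕ) : ℝ) *
          Pool.Agent.Results.MP_73869e_nt.LawOfLargeNumbers.V r X / (Nat.totient q : ℝ))) *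
        (((U i - S i : ℕ) : ℝ) * Pool.Agent.Results.MP_73869e_nt.LawOfLargeNumbers.V r X /
          (Nat.totient q : ℝ)) ^ c i / ((c i).factorial : ℝ)| ≤ ε * Y := by
  obtain ⟨r0, hr0, h⟩ := lawX h1 k q a hq ha θ x0 ε hθ hε q
  refine ⟨r0, hr0, ?_⟩
  intro r hr
  obtain ⟨X0, hX0⟩ := h r hr
  refine ⟨X0, ?_⟩
  intro X hX Z Y hXY hZY S U hU hDj A
  obtain ⟨hX1, h5, hqy, hlen, hmain⟩ := hX0 X hX
  have hVeq : Pool.Agent.Results.MP_73869e_nt.LawOfLargeNumbers.V r X = V1 ⌊(X : ℝ) ^ (1 / (r : ℝ))⌋₊ := rfl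
  have h2 := hmain Z Y hXY S U (fun i => by
    have := hU i
    rwa [hVeq] at this) hDj A
  have hfe : (Ioc Z (Z + Y)).filter (fun n => (fun i => Ng r X q (a i) (S i) (U i) n) ∈ A) =
      (Ioc Z (Z + Y)).filter (fun n =>
        (fun i => Nb q (a i) ⌊(X : ℝ) ^ (1 / (r : ℝ))⌋₊ (S i) (U i) n) ∈ A) := by
    apply Finset.filter_congr
    intro n hn
    rw [mem_Ioc] at hn
    have he : (fun i => Ng r X q (a i) (S i) (U i) n) =
        (fun i => Nb q (a i) ⌊(X : ℝ) ^ (1 / (r : ℝ))⌋₊ (S i) (U i) n) := by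
      funext i
      have hUX : U i ≤ X := hlen (U i) (by
        have := hU i
        rwa [hVeq] at this)
      have hn2 : n ≤ 2 * X := hn.2.trans hZY
      have hsq : n ^ 2 ≤ (2 * X) ^ 2 := Nat.pow_le_pow_left hn2 2
      exact Ng_eq hq r X (a i) (S i) (U i) n (by omega) hX1 h5 hqy (by nlinarith)
    rw [he]
  rw [hfe]
  exact h2

end Pool.Agent.K1H73.SQB
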