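import Pool.Agent.K1H73.SQB.LawX2
import Pool.Agent.K1H73.SQB.Tr

set_option autoImplicit false

/-!
# Project SQB: from the sifted integers to the almost primes, consecutive squares
-/

namespace Pool.Agent.K1H73.SQB

open Finset Pool.Agent.Y862.SQ

open Classical in
/-- the law for the almost primes -/
theorem lawG2 (h1 : S_LAWJ2) (k q : ℕ) (a s : Fin k → ℕ) (hq : Squarefree q) (ha : ∀ i, (a i).Coprime q)
    (θ x0 ε : ℝ) (hθ : 0 < θ) (hε : 0 < ε) : ∃ r0 : ℕ, 2 ≤ r0 ∧ ∀ r : ℕ, r0 ≤ r → ∃ X0 : ℕ, ∀ X : ℕ,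
    X0 ≤ X → ∀ Z Y : ℕ, (X : ℝ) ^ θ ≤ Y → Z + Y ≤ 2 * X →
    ∀ S U : Fin k → ℕ, (∀ i, U i * Pool.Agent.Results.MP_73869e_nt.LawOfLargeNumbers.V r X ≤ x0) →
    (∀ i j, i ≠ j → s i ≠ s j ∨ a i % q ≠ a j % q ∨ Disjoint (Ioc (S i) (U i)) (Ioc (S j) (U j))) →
    ∀ A : Finset (Fin k → ℕ),
    |((((Ioc Z (Z + Y)).filter (fun n => (fun i => Ng r X q (a i) (S i) (U i) (n + s i)) ∈ A)).card : ℕ) : ℝ) -
      Y * ∑ c ∈ A, ∏ i, Real.exp (-(((U i - S i : ℕ) : ℝ) *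
          Pool.Agent.Results.MP_73869e_nt.LawOfLargeNumbers.V r X / (Nat.totient q : ℝ))) *
        (((U i - S i : ℕ) : ℝ) * Pool.Agent.Results.MP_73869e_nt.LawOfLargeNumbers.V r X /
          (Nat.totient q : ℝ)) ^ c i / ((c i).factorial : ℝ)| ≤ ε * Y := by
  obtain ⟨r0, hr0, h⟩ := lawX2 h1 k q a s hq ha θ x0 ε hθ hε q
  refine ⟨r0, hr0, ?_⟩
  intro r hr
  obtain ⟨X0, hX0⟩ := h r hr
  obtain ⟨s0, hs0⟩ : ∃ s0 : ℕ, s0 = ∑ i, s i := ⟨_, rfl⟩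
  refine ⟨X0 + 6 * s0 + 6, ?_⟩
  intro X hX Z Y hXY hZY S U hU hDj A
  obtain ⟨hX1, h5, hqy, hlen, hmain⟩ := hX0 X (by omega)
  have hVeq : Pool.Agent.Results.MP_73869e_nt.LawOfLargeNumbers.V r X = V1 ⌊(X : ℝ) ^ (1 / (r : ℝ))⌋₊ := rfl
  have h2 := hmain Z Y hXY S U (fun i => by
    have := hU i
    rwa [hVeq] at this) hDj A
  have hfe : (Ioc Z (Z + Y)).filter (fun n => (fun i => Ng r X q (a i) (S i) (U i) (n + s i)) ∈ A) =
      (Ioc Z (Z + Y)).filter (fun n =>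
        (fun i => Nb q (a i) ⌊(X : ℝ) ^ (1 / (r : ℝ))⌋₊ (S i) (U i) (n + s i)) ∈ A) := by
    apply Finset.filter_congr
    intro n hn
    rw [mem_Ioc] at hn
    have he : (fun i => Ng r X q (a i) (S i) (U i) (n + s i)) =
        (fun i => Nb q (a i) ⌊(X : ℝ) ^ (1 / (r : ℝ))⌋₊ (S i) (U i) (n + s i)) := by
      funext i
      have hUX : U i ≤ X := hlen (U i) (by
        have := hU i
        rwa [hVeq] at this)
      have hsi : s i ≤ s0 := by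
        rw [hs0]
        exact Finset.single_le_sum (fun _ _ => Nat.zero_le _) (mem_univ i)
      have hn2 : n + s i ≤ 2 * X + s0 := by
        have := hn.2.trans hZY
        omega
      have hsq : (n + s i) ^ 2 ≤ (2 * X + s0) ^ 2 := Nat.pow_le_pow_left hn2 2
      have h6 : 6 * s0 + 6 ≤ X := by omega
      exact Ng_eq hq r X (a i) (S i) (U i) (n + s i) (by omega) hX1 h5 hqy (by nlinarith)
    rw [he]
  rw [hfe]
  exact h2

end Pool.Agent.K1H73.SQB
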