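import Pool.Agent.K1H73.SQB.LawX3
import Pool.Agent.K1H73.SQB.Tr

set_option autoImplicit false

/-!
# Project SQB: from the sifted integers to the almost primes, consecutive squares, prescribed elements
-/

namespace Pool.Agent.K1H73.SQB

open Finset Pool.Agent.Y862.SQ

open Classical in
/-- the number of the good integers `m ≡ a` modulo `q` of the form `(n + s) ^ 2 + h`, `S < h ≤ U`,
`(s, h)` not in `P` -/
noncomputable def Nh (r X : ℕ) (P : Finset (ℕ × ℕ)) (q a s S U n : ℕ) : ℕ :=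
  ((Ioc S U).filter (fun h => (s, h) ∉ P ∧
    Pool.Agent.Results.MP_73869e_nt.LawOfLargeNumbers.Good r X ((n + s) ^ 2 + h) ∧
    ((n + s) ^ 2 + h) % q = a % q)).card

lemma Nh_eq {q : ℕ} (hq : Squarefree q) (r X : ℕ) (P : Finset (ℕ × ℕ)) (a s S U n : ℕ) (hr : 1 ≤ r)
    (hX : 1 ≤ X) (h5 : 5 < (X : ℝ) ^ (1 / (r : ℝ))) (hqy : q ≤ ⌊(X : ℝ) ^ (1 / (r : ℝ))⌋₊)
    (hn : (n + s) ^ 2 + U ≤ 5 * X ^ 2) :
    Nh r X P q a s S U n = NP P q a ⌊(X : ℝ) ^ (1 / (r : ℝ))⌋₊ s S U n := by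
  classical
  unfold Nh NP blk
  rw [Finset.filter_filter]
  congr 1
  apply Finset.filter_congr
  intro h hh
  rw [mem_Ioc] at hh
  rw [ok_iff hq _ _ _ hqy,
    Pool.Agent.Results.MP_73869e_nt.LawOfLargeNumbers.good_iff r X ((n + s) ^ 2 + h) hr hX h5
      (by omega) (by omega)]

open Classical in
/-- the law for the almost primes -/
theorem lawG3 (h1 : S_LAWJ3) (k q : ℕ) (a s : Fin k → ℕ) (P : Finset (ℕ × ℕ)) (hq : Squarefree q)
    (ha : ∀ i, (a i).Coprime q) (hP : ∀ p : ℕ, p.Prime → r2 P p < p) (hP1 : ∀ z ∈ P, 1 ≤ z.2)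
    (θ x0 ε : ℝ) (hθ : 0 < θ) (hε : 0 < ε) : ∃ r0 : ℕ, 2 ≤ r0 ∧ ∀ r : ℕ, r0 ≤ r → ∃ X0 : ℕ, ∀ X : ℕ,
    X0 ≤ X → ∀ Z Y : ℕ, (X : ℝ) ^ θ ≤ Y → Z + Y ≤ 2 * X →
    ∀ S U : Fin k → ℕ, (∀ i, U i * Pool.Agent.Results.MP_73869e_nt.LawOfLargeNumbers.V r X ≤ x0) →
    (∀ i j, i ≠ j → s i ≠ s j ∨ a i % q ≠ a j % q ∨ Disjoint (Ioc (S i) (U i)) (Ioc (S j) (U j))) →
    ∀ A : Finset (Fin k → ℕ),
    |((((Ioc Z (Z + Y)).filter (fun n =>
      (∀ z ∈ P, Pool.Agent.Results.MP_73869e_nt.LawOfLargeNumbers.Good r X ((n + z.1) ^ 2 + z.2)) ∧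
      (fun i => Nh r X P q (a i) (s i) (S i) (U i) n) ∈ A)).card : ℕ) : ℝ) -
      Y * VP P ⌊(X : ℝ) ^ (1 / (r : ℝ))⌋₊ * ∑ c ∈ A, ∏ i, Real.exp (-(((U i - S i : ℕ) : ℝ) *
          Pool.Agent.Results.MP_73869e_nt.LawOfLargeNumbers.V r X / (Nat.totient q : ℝ))) *
        (((U i - S i : ℕ) : ℝ) * Pool.Agent.Results.MP_73869e_nt.LawOfLargeNumbers.V r X /
          (Nat.totient q : ℝ)) ^ c i / ((c i).factorial : ℝ)| ≤
      ε * (Y * VP P ⌊(X : ℝ) ^ (1 / (r : ℝ))⌋₊) := by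
  obtain ⟨r0, hr0, h⟩ := lawX3 h1 k q a s P hq ha hP hP1 θ x0 ε hθ hε q
  refine ⟨r0, hr0, ?_⟩
  intro r hr
  obtain ⟨X0, hX0⟩ := h r hr
  obtain ⟨s0, hs0⟩ : ∃ s0 : ℕ, s0 = ∑ i, s i := ⟨_, rfl⟩
  obtain ⟨s1, hs1⟩ : ∃ s1 : ℕ, s1 = ∑ z ∈ P, (z.1 + z.2) := ⟨_, rfl⟩
  refine ⟨X0 + 6 * (s0 + s1) + 6, ?_⟩
  intro X hX Z Y hXY hZY S U hU hDj A
  obtain ⟨hX1, h5, hqy, hlen, hmain⟩ := hX0 X (by omega)
  have hVeq : Pool.Agent.Results.MP_73869e_nt.LawOfLargeNumbers.V r X = V1 ⌊(X : ℝ) ^ (1 / (r : ℝ))⌋₊ := rfl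
  have h2 := hmain Z Y hXY S U (fun i => by
    have := hU i
    rwa [hVeq] at this) hDj A
  have hfe : (Ioc Z (Z + Y)).filter (fun n =>
      (∀ z ∈ P, Pool.Agent.Results.MP_73869e_nt.LawOfLargeNumbers.Good r X ((n + z.1) ^ 2 + z.2)) ∧
      (fun i => Nh r X P q (a i) (s i) (S i) (U i) n) ∈ A) =
      (Ioc Z (Z + Y)).filter (fun n => gd P ⌊(X : ℝ) ^ (1 / (r : ℝ))⌋₊ n ∧
        (fun i => NP P q (a i) ⌊(X : ℝ) ^ (1 / (r : ℝ))⌋₊ (s i) (S i) (U i) n) ∈ A) := by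
    apply Finset.filter_congr
    intro n hn
    rw [mem_Ioc] at hn
    have he : (fun i => Nh r X P q (a i) (s i) (S i) (U i) n) =
        (fun i => NP P q (a i) ⌊(X : ℝ) ^ (1 / (r : ℝ))⌋₊ (s i) (S i) (U i) n) := by
      funext i
      have hUX : U i ≤ X := hlen (U i) (by
        have := hU i
        rwa [hVeq] at this)
      have hsi : s i ≤ s0 := by
        rw [hs0]
        exact Finset.single_le_sum (fun _ _ => Nat.zero_le _) (mem_univ i)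
      have hn2 : n + s i ≤ 2 * X + s0 := by
        have := hn.2.trans hZY
        omega
      have hsq : (n + s i) ^ 2 ≤ (2 * X + s0) ^ 2 := Nat.pow_le_pow_left hn2 2
      have h6 : 6 * s0 + 6 ≤ X := by omega
      exact Nh_eq hq r X P (a i) (s i) (S i) (U i) n (by omega) hX1 h5 hqy (by nlinarith)
    rw [he]
    have hgd : (∀ z ∈ P, Pool.Agent.Results.MP_73869e_nt.LawOfLargeNumbers.Good r X ((n + z.1) ^ 2 + z.2)) ↔
        gd P ⌊(X : ℝ) ^ (1 / (r : ℝ))⌋₊ n := by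
      unfold gd
      apply forall_congr'
      intro z
      apply forall_congr'
      intro hz
      have hz1 : z.1 + z.2 ≤ s1 := by
        rw [hs1]
        exact Finset.single_le_sum (f := fun z : ℕ × ℕ => z.1 + z.2) (fun _ _ => Nat.zero_le _) hz
      have hn2 : n + z.1 ≤ 2 * X + s1 := by
        have := hn.2.trans hZY
        omega
      have hsq : (n + z.1) ^ 2 ≤ (2 * X + s1) ^ 2 := Nat.pow_le_pow_left hn2 2
      have h6 : 6 * s1 + 6 ≤ X := by omega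
      have hz2 := hP1 z hz
      exact Pool.Agent.Results.MP_73869e_nt.LawOfLargeNumbers.good_iff r X ((n + z.1) ^ 2 + z.2)
        (by omega) hX1 h5 (by omega) (by nlinarith)
    rw [hgd]
  rw [hfe]
  exact h2

end Pool.Agent.K1H73.SQB
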